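import Pool.Agent.H.MP_bdb63f_co.Main

namespace Pool.Agent.Results.MP_bdb63f_co.NoBound

open Pool.Agent.H.MP_bdb63f_co

theorem result (L : ℕ) : ∃ (V : Type) (_ : Fintype V) (H : SimpleGraph V),
    TwoConn H ∧ H.IsEdgeConnected L ∧ ∀ s t : V, ¬ HasTriple H s t :=
  ⟨W (L + 2), inferInstance, G (L + 2), twoConn (by omega),
    fun u v => (edgeConn u v).anti (by omega), noTriple⟩

end Pool.Agent.Results.MP_bdb63f_co.NoBound
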